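import Mathlib

/-! Bonferroni inequalities for products and a deterministic lower bound for the number of gaps. -/

set_option autoImplicit false

namespace Pool.Agent.Run7.h899.GP

open Finset

/-- the elementary symmetric sum -/
def es (r : ℕ → ℝ) (j : ℕ) (S : Finset ℕ) : ℝ := ∑ U ∈ powersetCard j S, ∏ i ∈ U, r i

lemma es_zero (r : ℕ → ℝ) (S : Finset ℕ) : es r 0 S = 1 := by
  unfold es
  rw [powersetCard_zero, sum_singleton, prod_empty]

lemma es_insert (r : ℕ → ℝ) (j a : ℕ) (S : Finset ℕ) (ha : a ∉ S) :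
    es r (j + 1) (insert a S) = es r (j + 1) S + r a * es r j S := by
  unfold es
  rw [powersetCard_succ_insert ha, sum_union, mul_sum]
  · congr 1
    rw [sum_image]
    · refine sum_congr rfl fun U hU => ?_
      rw [prod_insert]
      intro h
      exact ha ((mem_powersetCard.1 hU).1 h)
    · intro U hU V hV h
      have hU' : a ∉ U := fun h => ha ((mem_powersetCard.1 hU).1 h)
      have hV' : a ∉ V := fun h => ha ((mem_powersetCard.1 hV).1 h)
      have := congrArg (fun W => W.erase a) h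
      simpa [erase_insert hU', erase_insert hV'] using this
  · rw [disjoint_left]
    intro U hU hU'
    obtain ⟨V, -, rfl⟩ := mem_image.1 hU'
    exact ha ((mem_powersetCard.1 hU).1 (mem_insert_self _ _))

lemma es_nonneg (r : ℕ → ℝ) (j : ℕ) (S : Finset ℕ) (h : ∀ i, 0 ≤ r i) : 0 ≤ es r j S :=
  sum_nonneg fun _ _ => prod_nonneg fun i _ => h i

/-- the truncated inclusion-exclusion sum -/
def PJ (r : ℕ → ℝ) (J : ℕ) (S : Finset ℕ) : ℝ := ∑ j ∈ range (J + 1), (-1) ^ j * es r j S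

lemma PJ_zero (r : ℕ → ℝ) (S : Finset ℕ) : PJ r 0 S = 1 := by
  unfold PJ
  simp [es_zero]

lemma PJ_insert (r : ℕ → ℝ) (J a : ℕ) (S : Finset ℕ) (ha : a ∉ S) :
    PJ r (J + 1) (insert a S) = PJ r (J + 1) S - r a * PJ r J S := by
  unfold PJ
  rw [sum_range_succ', sum_range_succ' (fun j => (-1 : ℝ) ^ j * es r j S) (J + 1)]
  simp only [es_zero]
  have : ∑ j ∈ range (J + 1), (-1 : ℝ) ^ (j + 1) * es r (j + 1) (insert a S) =
      ∑ j ∈ range (J + 1), (-1 : ℝ) ^ (j + 1) * es r (j + 1) S - r a * ∑ j ∈ range (J + 1), (-1) ^ j * es r j S := by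
    rw [mul_sum, ← sum_sub_distrib]
    refine sum_congr rfl fun j _ => ?_
    rw [es_insert r j a S ha, pow_succ]
    ring
  rw [this]
  ring

theorem bonferroni (r : ℕ → ℝ) (h0 : ∀ i, 0 ≤ r i) (h1 : ∀ i, r i ≤ 1) (S : Finset ℕ) : ∀ J : ℕ,
    0 ≤ (-1) ^ (J + 1) * (∏ i ∈ S, (1 - r i) - PJ r J S) ∧
    (-1) ^ (J + 1) * (∏ i ∈ S, (1 - r i) - PJ r J S) ≤ es r (J + 1) S := by
  induction S using Finset.induction_on with
  | empty =>
    intro J
    have e1 : PJ r J ∅ = 1 := by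
      unfold PJ
      rw [sum_range_succ']
      simp only [es_zero, pow_zero, mul_one]
      have : ∑ j ∈ range J, (-1 : ℝ) ^ (j + 1) * es r (j + 1) ∅ = 0 := by
        refine sum_eq_zero fun j _ => ?_
        have : es r (j + 1) ∅ = 0 := by
          unfold es
          rw [powersetCard_eq_empty.2 (by simp), sum_empty]
        rw [this, mul_zero]
      rw [this, zero_add]
    rw [e1, prod_empty]
    simp only [sub_self, mul_zero, le_refl, true_and]
    exact es_nonneg r _ _ h0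
  | insert a S ha ih =>
    intro J
    rw [prod_insert ha]
    have hP0 : 0 ≤ ∏ i ∈ S, (1 - r i) := prod_nonneg fun i _ => by linarith [h1 i]
    have hP1 : ∏ i ∈ S, (1 - r i) ≤ 1 := prod_le_one (fun i _ => by linarith [h1 i]) (fun i _ => by linarith [h0 i])
    rcases J with _ | J
    · obtain ⟨g1, g2⟩ := ih 0
      rw [PJ_zero] at g1 g2 ⊢
      rw [es_insert r 0 a S ha, es_zero]
      have h2 := mul_nonneg (h0 a) hP0
      have h3 := mul_le_mul_of_nonneg_left hP1 (h0 a)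
      norm_num at g1 g2 ⊢
      constructor
      · nlinarith
      · nlinarith
    · obtain ⟨g1, g2⟩ := ih (J + 1)
      obtain ⟨g3, g4⟩ := ih J
      rw [PJ_insert r J a S ha, es_insert r (J + 1) a S ha]
      have e : (-1 : ℝ) ^ (J + 1 + 1) * ((1 - r a) * ∏ i ∈ S, (1 - r i) - (PJ r (J + 1) S - r a * PJ r J S)) =
          (-1 : ℝ) ^ (J + 1 + 1) * (∏ i ∈ S, (1 - r i) - PJ r (J + 1) S) +
            r a * ((-1 : ℝ) ^ (J + 1) * (∏ i ∈ S, (1 - r i) - PJ r J S)) := by
        rw [pow_succ (-1 : ℝ) (J + 1)]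
        ring
      rw [e]
      have h2 := mul_nonneg (h0 a) g3
      have h3 := mul_le_mul_of_nonneg_left g4 (h0 a)
      constructor
      · linarith
      · linarith

lemma es_le (r : ℕ → ℝ) (h0 : ∀ i, 0 ≤ r i) (y : ℝ) (hy : ∀ i, r i ≤ y) (j : ℕ) (S : Finset ℕ) (lam : ℝ)
    (hl : (S.card : ℝ) * y ≤ lam) : es r j S ≤ lam ^ j / j.factorial := by
  have hy0 : 0 ≤ y := (h0 0).trans (hy 0)
  have h1 : es r j S ≤ (S.card.choose j : ℝ) * y ^ j := by
    unfold es
    calc ∑ U ∈ powersetCard j S, ∏ i ∈ U, r i ≤ ∑ _U ∈ powersetCard j S, y ^ j := by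
          refine sum_le_sum fun U hU => ?_
          calc ∏ i ∈ U, r i ≤ ∏ _i ∈ U, y := prod_le_prod (fun i _ => h0 i) (fun i _ => hy i)
            _ = y ^ j := by rw [prod_const, (mem_powersetCard.1 hU).2]
      _ = _ := by rw [sum_const, card_powersetCard, nsmul_eq_mul]
  refine h1.trans ?_
  have h2 : (S.card.choose j : ℝ) ≤ (S.card : ℝ) ^ j / j.factorial := Nat.choose_le_pow_div j S.card
  calc (S.card.choose j : ℝ) * y ^ j ≤ (S.card : ℝ) ^ j / j.factorial * y ^ j := by gcongr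
    _ = ((S.card : ℝ) * y) ^ j / j.factorial := by rw [mul_pow]; ring
    _ ≤ lam ^ j / j.factorial := by gcongr

lemma exp_low {y : ℝ} (h0 : 0 ≤ y) (h1 : y ≤ 1 / 2) : Real.exp (-(2 * y)) ≤ 1 - y := by
  rw [Real.exp_neg]
  have h2 : 1 + 2 * y ≤ Real.exp (2 * y) := by
    have := Real.add_one_le_exp (2 * y)
    linarith
  calc (Real.exp (2 * y))⁻¹ ≤ (1 + 2 * y)⁻¹ := inv_anti₀ (by linarith) h2
    _ ≤ 1 - y := by
      rw [inv_le_iff_one_le_mul₀ (by linarith)]
      nlinarith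

lemma prod_low (r : ℕ → ℝ) (h0 : ∀ i, 0 ≤ r i) (y : ℝ) (hy : ∀ i, r i ≤ y) (hy2 : y ≤ 1 / 2) (S : Finset ℕ) (lam : ℝ)
    (hl : (S.card : ℝ) * y ≤ lam) : Real.exp (-(2 * lam)) ≤ ∏ i ∈ S, (1 - r i) := by
  have hy0 : 0 ≤ y := (h0 0).trans (hy 0)
  calc Real.exp (-(2 * lam)) ≤ Real.exp (-(2 * ((S.card : ℝ) * y))) := by
        apply Real.exp_le_exp.2
        linarith
    _ = ∏ _i ∈ S, Real.exp (-(2 * y)) := by
        rw [prod_const, ← Real.exp_nat_mul]
        congr 1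
        ring
    _ ≤ ∏ i ∈ S, (1 - r i) := by
        refine prod_le_prod (fun i _ => (Real.exp_pos _).le) fun i _ => ?_
        have := exp_low hy0 hy2
        linarith [hy i]

/-- the number of gaps `t`, from the correlations -/
theorem det (I : Finset ℕ) (f ρ : ℕ → ℝ) (hf : ∀ m, 0 ≤ f m ∧ f m ≤ 1) (hρ : ∀ m, 0 ≤ ρ m ∧ ρ m ≤ 1)
    (t H L : ℕ) (ht : 0 < t) (htH : t ≤ H) (y lam : ℝ) (hy2 : y ≤ 1 / 2) (hρy : ∀ n ∈ I, ∀ i, ρ (n + i) ≤ y)
    (hy0 : 0 ≤ y) (hl : (t : ℝ) * y ≤ lam) (err η : ℝ) (herr : 0 ≤ err) (hη : 0 ≤ η)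
    (hlaw : ∀ T ⊆ range (H + 1), T.card ≤ 2 * L + 3 →
      |∑ n ∈ I, ∏ i ∈ T, f (n + i) - ∑ n ∈ I, ∏ i ∈ T, ρ (n + i)| ≤ err + η * ∑ n ∈ I, ∏ i ∈ T, ρ (n + i)) :
    (∑ n ∈ I, ρ n * ρ (n + t)) * (Real.exp (-(2 * lam)) - lam ^ (2 * L + 2) / (2 * L + 2).factorial -
        η * ∑ j ∈ range (2 * L + 2), lam ^ j / j.factorial) -
      (2 * L + 2 : ℕ) * ((H : ℝ) + 1) ^ (2 * L + 1) * err ≤
    ∑ n ∈ I, f n * f (n + t) * ∏ i ∈ Ioo 0 t, (1 - f (n + i)) := by
  classical
  set D : Finset ℕ := Ioo 0 t with hD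
  have hDc : (D.card : ℝ) ≤ t := by
    have : D.card ≤ t := by
      rw [hD, Nat.card_Ioo]
      omega
    exact_mod_cast this
  have hDl : (D.card : ℝ) * y ≤ lam := (mul_le_mul_of_nonneg_right hDc hy0).trans hl
  have hprod : ∀ (g : ℕ → ℝ) (n : ℕ) (U : Finset ℕ), U ⊆ D →
      g n * g (n + t) * ∏ i ∈ U, g (n + i) = ∏ i ∈ insert 0 (insert t U), g (n + i) := by
    intro g n U hU
    have h1 : t ∉ U := fun h => by
      have := mem_Ioo.1 (hU h)
      omega
    have h2 : 0 ∉ insert t U := by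
      intro h
      rcases mem_insert.1 h with h | h
      · omega
      · have := mem_Ioo.1 (hU h)
        omega
    rw [prod_insert h2, prod_insert h1, add_zero]
    ring
  have hcardT : ∀ U : Finset ℕ, (insert 0 (insert t U)).card ≤ U.card + 2 := by
    intro U
    have h1 := card_insert_le 0 (insert t U)
    have h2 := card_insert_le t U
    omega
  have hsubT : ∀ U ⊆ D, insert 0 (insert t U) ⊆ range (H + 1) := by
    intro U hU i hi
    rw [mem_range]
    rcases mem_insert.1 hi with rfl | hi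
    · omega
    · rcases mem_insert.1 hi with rfl | hi
      · omega
      · have := mem_Ioo.1 (hU hi)
        omega
  -- the double sums
  have hswap : ∀ (c g : ℕ → ℝ), ∑ n ∈ I, g n * g (n + t) * ∑ j ∈ range (2 * L + 2), c j * es (fun i => g (n + i)) j D =
      ∑ j ∈ range (2 * L + 2), c j * ∑ U ∈ powersetCard j D, ∑ n ∈ I, ∏ i ∈ insert 0 (insert t U), g (n + i) := by
    intro c g
    unfold es
    calc ∑ n ∈ I, g n * g (n + t) * ∑ j ∈ range (2 * L + 2), c j * ∑ U ∈ powersetCard j D, ∏ i ∈ U, g (n + i)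
        = ∑ n ∈ I, ∑ j ∈ range (2 * L + 2), c j * ∑ U ∈ powersetCard j D, ∏ i ∈ insert 0 (insert t U), g (n + i) := by
          refine sum_congr rfl fun n _ => ?_
          rw [mul_sum]
          refine sum_congr rfl fun j _ => ?_
          rw [mul_left_comm, mul_sum]
          congr 1
          refine sum_congr rfl fun U hU => ?_
          exact hprod g n U (mem_powersetCard.1 hU).1
      _ = _ := by
          rw [sum_comm]
          refine sum_congr rfl fun j _ => ?_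
          rw [← mul_sum, sum_comm]
  have hPJ : ∀ (g : ℕ → ℝ), ∑ n ∈ I, g n * g (n + t) * PJ (fun i => g (n + i)) (2 * L + 1) D =
      ∑ j ∈ range (2 * L + 2), (-1 : ℝ) ^ j * ∑ U ∈ powersetCard j D, ∑ n ∈ I, ∏ i ∈ insert 0 (insert t U), g (n + i) :=
    fun g => hswap (fun j => (-1 : ℝ) ^ j) g
  have hE0 : ∀ n, 0 ≤ ρ n * ρ (n + t) := fun n => mul_nonneg (hρ _).1 (hρ _).1
  have hplus : ∑ j ∈ range (2 * L + 2), ∑ U ∈ powersetCard j D, ∑ n ∈ I, ∏ i ∈ insert 0 (insert t U), ρ (n + i) ≤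
      (∑ n ∈ I, ρ n * ρ (n + t)) * ∑ j ∈ range (2 * L + 2), lam ^ j / j.factorial := by
    have h1 := hswap (fun _ => 1) ρ
    simp only [one_mul] at h1
    rw [← h1, sum_mul]
    refine sum_le_sum fun n hn => ?_
    apply mul_le_mul_of_nonneg_left _ (hE0 n)
    refine sum_le_sum fun j _ => ?_
    exact es_le _ (fun i => (hρ _).1) y (fun i => hρy n hn i) j D lam hDl
  have hsign : (-1 : ℝ) ^ (2 * L + 1 + 1) = 1 := by
    rw [show 2 * L + 1 + 1 = 2 * (L + 1) by ring, pow_mul]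
    norm_num
  -- the lower bound for `f`
  have s1 : ∑ n ∈ I, f n * f (n + t) * PJ (fun i => f (n + i)) (2 * L + 1) D ≤
      ∑ n ∈ I, f n * f (n + t) * ∏ i ∈ D, (1 - f (n + i)) := by
    refine sum_le_sum fun n _ => ?_
    apply mul_le_mul_of_nonneg_left _ (mul_nonneg (hf _).1 (hf _).1)
    have := (bonferroni (fun i => f (n + i)) (fun i => (hf _).1) (fun i => (hf _).2) D (2 * L + 1)).1
    rw [hsign, one_mul] at this
    linarith
  have s2 : (∑ n ∈ I, ρ n * ρ (n + t)) * (Real.exp (-(2 * lam)) - lam ^ (2 * L + 2) / (2 * L + 2).factorial) ≤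
      ∑ n ∈ I, ρ n * ρ (n + t) * PJ (fun i => ρ (n + i)) (2 * L + 1) D := by
    rw [sum_mul]
    refine sum_le_sum fun n hn => ?_
    apply mul_le_mul_of_nonneg_left _ (hE0 n)
    have h1 := (bonferroni (fun i => ρ (n + i)) (fun i => (hρ _).1) (fun i => (hρ _).2) D (2 * L + 1)).2
    rw [hsign, one_mul] at h1
    have h2 := es_le (fun i => ρ (n + i)) (fun i => (hρ _).1) y (fun i => hρy n hn i) (2 * L + 2) D lam hDl
    have h3 := prod_low (fun i => ρ (n + i)) (fun i => (hρ _).1) y (fun i => hρy n hn i) hy2 D lam hDl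
    have h4 : es (fun i => ρ (n + i)) (2 * L + 1 + 1) D = es (fun i => ρ (n + i)) (2 * L + 2) D := rfl
    rw [h4] at h1
    linarith
  have s3 : ∑ n ∈ I, ρ n * ρ (n + t) * PJ (fun i => ρ (n + i)) (2 * L + 1) D -
      ∑ j ∈ range (2 * L + 2), ∑ U ∈ powersetCard j D,
        (err + η * ∑ n ∈ I, ∏ i ∈ insert 0 (insert t U), ρ (n + i)) ≤
      ∑ n ∈ I, f n * f (n + t) * PJ (fun i => f (n + i)) (2 * L + 1) D := by
    rw [hPJ f, hPJ ρ, ← sum_sub_distrib]
    refine sum_le_sum fun j hj => ?_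
    rw [mul_sum, mul_sum, ← sum_sub_distrib]
    refine sum_le_sum fun U hU => ?_
    obtain ⟨hU1, hU2⟩ := mem_powersetCard.1 hU
    have hj2 := mem_range.1 hj
    have h1 := hlaw (insert 0 (insert t U)) (hsubT U hU1) (by
      have := hcardT U
      omega)
    set F := ∑ n ∈ I, ∏ i ∈ insert 0 (insert t U), f (n + i)
    set R := ∑ n ∈ I, ∏ i ∈ insert 0 (insert t U), ρ (n + i)
    have h2 := abs_le.1 h1
    rcases neg_one_pow_eq_or ℝ j with h3 | h3
    · rw [h3]
      linarith [h2.1]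
    · rw [h3]
      linarith [h2.2]
  have s4 : ∑ j ∈ range (2 * L + 2), ∑ U ∈ powersetCard j D,
        (err + η * ∑ n ∈ I, ∏ i ∈ insert 0 (insert t U), ρ (n + i)) ≤
      (2 * L + 2 : ℕ) * ((H : ℝ) + 1) ^ (2 * L + 1) * err +
        η * ((∑ n ∈ I, ρ n * ρ (n + t)) * ∑ j ∈ range (2 * L + 2), lam ^ j / j.factorial) := by
    have e1 : ∑ j ∈ range (2 * L + 2), ∑ U ∈ powersetCard j D,
        (err + η * ∑ n ∈ I, ∏ i ∈ insert 0 (insert t U), ρ (n + i)) =
        ∑ j ∈ range (2 * L + 2), ((D.card.choose j : ℕ) : ℝ) * err +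
          η * ∑ j ∈ range (2 * L + 2), ∑ U ∈ powersetCard j D, ∑ n ∈ I, ∏ i ∈ insert 0 (insert t U), ρ (n + i) := by
      rw [mul_sum, ← sum_add_distrib]
      refine sum_congr rfl fun j _ => ?_
      rw [sum_add_distrib, sum_const, card_powersetCard, nsmul_eq_mul, mul_sum]
    rw [e1]
    apply add_le_add _ (mul_le_mul_of_nonneg_left hplus hη)
    have h1 : ∀ j ∈ range (2 * L + 2), ((D.card.choose j : ℕ) : ℝ) * err ≤ ((H : ℝ) + 1) ^ (2 * L + 1) * err := by
      intro j hj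
      have hj2 := mem_range.1 hj
      apply mul_le_mul_of_nonneg_right _ herr
      have h2 : D.card.choose j ≤ (H + 1) ^ (2 * L + 1) := by
        calc D.card.choose j ≤ D.card ^ j := Nat.choose_le_pow _ _
          _ ≤ (H + 1) ^ j := by
            apply Nat.pow_le_pow_left
            have : D.card ≤ t := by exact_mod_cast hDc
            omega
          _ ≤ (H + 1) ^ (2 * L + 1) := Nat.pow_le_pow_right (by omega) (by omega)
      exact_mod_cast h2
    refine (sum_le_sum h1).trans ?_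
    rw [sum_const, card_range, nsmul_eq_mul]
    apply le_of_eq
    ring
  have e5 : (∑ n ∈ I, ρ n * ρ (n + t)) * (Real.exp (-(2 * lam)) - lam ^ (2 * L + 2) / (2 * L + 2).factorial -
        η * ∑ j ∈ range (2 * L + 2), lam ^ j / j.factorial) =
      (∑ n ∈ I, ρ n * ρ (n + t)) * (Real.exp (-(2 * lam)) - lam ^ (2 * L + 2) / (2 * L + 2).factorial) -
        η * ((∑ n ∈ I, ρ n * ρ (n + t)) * ∑ j ∈ range (2 * L + 2), lam ^ j / j.factorial) := by
    ring
  rw [e5]
  linarith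

end Pool.Agent.Run7.h899.GP
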