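import Mathlib
import Pool.Agent.N233.GM.Law
import Pool.Agent.Run7.h899.GP.Bon

/-! Gaps of length at most a constant times the logarithm in random models with a fixed sieve. -/

set_option autoImplicit false
set_option linter.unusedSectionVars false

namespace Pool.Agent.Run7.h899.GP

open Finset Filter Asymptotics MeasureTheory Pool.Agent.N233.GM
open Pool.Agent.R528.RM
open scoped Topology

lemma sqrt_tendsto : Tendsto Nat.sqrt atTop atTop := by
  rw [tendsto_atTop_atTop]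
  intro b
  refine ⟨b * b, fun a ha => ?_⟩
  exact Nat.le_sqrt.2 ha

/-- the range of the offsets -/
noncomputable def HH (C x : ℕ) : ℕ := ⌊(C : ℝ) * Real.log x⌋₊

lemma HH_le (C x : ℕ) (hx : 3 ≤ x) : ((HH C x : ℝ) + 1) ≤ (C + 1) * Real.log x ∧ 1 ≤ Real.log (x : ℝ) := by
  have hx3 : (3 : ℝ) ≤ x := by exact_mod_cast hx
  have h1 : 1 ≤ Real.log (x : ℝ) := by
    rw [Real.le_log_iff_exp_le (by linarith)]
    have := Real.exp_one_lt_d9
    linarith
  refine ⟨?_, h1⟩
  have h2 : (HH C x : ℝ) ≤ C * Real.log x := Nat.floor_le (by positivity)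
  nlinarith

lemma pow_small (C k : ℕ) (δ : ℝ) (hδ : 0 < δ) (a : ℝ) (ha : 0 < a) : ∀ᶠ x : ℕ in atTop,
    δ * ((C + 1 : ℝ) * Real.log x) ^ k ≤ (x : ℝ) ^ a := by
  have h1 := (isLittleO_log_rpow_rpow_atTop (k : ℝ) ha).bound
    (show (0 : ℝ) < 1 / (δ * (C + 1 : ℝ) ^ k) by positivity)
  filter_upwards [tendsto_natCast_atTop_atTop.eventually h1, eventually_ge_atTop 3] with x h2 h3
  have hx3 : (3 : ℝ) ≤ x := by exact_mod_cast h3
  have hl : 0 ≤ Real.log (x : ℝ) := Real.log_nonneg (by linarith)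
  rw [Real.norm_eq_abs, Real.norm_eq_abs, abs_of_nonneg (Real.rpow_nonneg hl _),
    abs_of_nonneg (Real.rpow_nonneg (by linarith) _), Real.rpow_natCast] at h2
  rw [mul_pow]
  calc δ * ((C + 1 : ℝ) ^ k * Real.log x ^ k) = (δ * (C + 1 : ℝ) ^ k) * Real.log x ^ k := by ring
    _ ≤ (δ * (C + 1 : ℝ) ^ k) * (1 / (δ * (C + 1 : ℝ) ^ k) * (x : ℝ) ^ a) := by gcongr
    _ = (x : ℝ) ^ a := by field_simp

section

variable {Ω : Type} {m0 : MeasurableSpace Ω} {μ : Measure Ω} [IsProbabilityMeasure μ]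
  {ℱ : Filtration ℕ m0} {A : ℕ → Set Ω}

/-- the law for all correlations with short offsets -/
theorem lawT (hA : ∀ n, MeasurableSet[ℱ n] (A n)) {ρ : ℕ → ℝ} (hρ : ∀ n, 0 ≤ ρ n ∧ ρ n ≤ 1)
    (hprof : ∀ᵐ ω ∂μ, ∀ ε : ℝ, 0 < ε → ∀ᶠ n : ℕ in atTop,
      |dens μ ℱ A n ω - ρ (n + 1)| ≤ ε * ρ (n + 1)) :
    ∀ᵐ ω ∂μ, ∀ C k : ℕ, ∀ ε : ℝ, 0 < ε → ∀ᶠ x : ℕ in atTop, ∀ T ⊆ range (HH C x + 1), T.card = k →
      |∑ n ∈ Ioc (Nat.sqrt x) x, ∏ i ∈ T, In A (n + i) ω - ∑ n ∈ Ioc (Nat.sqrt x) x, ∏ i ∈ T, ρ (n + i)| ≤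
        2 * k * (k + 1 : ℕ) * √(2 * ((1 : ℕ) + 2) * Real.log x * (Ioc (Nat.sqrt x) x).card) +
          ε * ∑ n ∈ Ioc (Nat.sqrt x) x, ∏ i ∈ T, ρ (n + i) := by
  classical
  rw [ae_all_iff]
  intro C
  rw [ae_all_iff]
  intro k
  have h := Pool.Agent.R960.Fam.fam_law (μ := μ) (ℱ := ℱ) (A := A) hA (ρ := ρ)
    hρ hprof k (k + 1) 1 (by omega)
    (fun x : ℕ => ({x} : Finset ℕ) ×ˢ powersetCard k (range (HH C x + 1)))
    (by
      filter_upwards [pow_small C k 1 one_pos 1 one_pos, eventually_ge_atTop 3] with x h1 h2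
      rw [card_product, card_singleton, card_powersetCard, card_range, one_mul, pow_one]
      have h3 : ((HH C x + 1 : ℕ) : ℝ) ≤ (C + 1) * Real.log x := by
        have := (HH_le C x h2).1
        push_cast
        exact this
      rw [Real.rpow_one, one_mul] at h1
      have h4 : (((HH C x + 1).choose k : ℕ) : ℝ) ≤ x := by
        calc (((HH C x + 1).choose k : ℕ) : ℝ) ≤ (((HH C x + 1) ^ k : ℕ) : ℝ) := by
              exact_mod_cast Nat.choose_le_pow _ _
          _ = ((HH C x + 1 : ℕ) : ℝ) ^ k := by push_cast; rfl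
          _ ≤ ((C + 1 : ℝ) * Real.log x) ^ k := by gcongr
          _ ≤ x := h1
      exact_mod_cast h4)
    (fun a : ℕ × Finset ℕ => Ioc (Nat.sqrt a.1) a.1) (fun a n => a.2.image (fun i => n + i)) Nat.sqrt
    sqrt_tendsto
    (by
      filter_upwards with x a ha n hn
      obtain ⟨x', T⟩ := a
      rw [mem_product, mem_singleton, mem_powersetCard] at ha
      obtain ⟨ha1, -, ha3⟩ := ha
      simp only at ha1 ha3 hn ⊢
      subst ha1
      rw [mem_Ioc] at hn
      refine ⟨by rw [card_image_of_injective _ (fun i j h => by simpa using h), ha3], ?_⟩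
      intro m hm
      obtain ⟨i, -, rfl⟩ := mem_image.1 hm
      omega)
    (by
      filter_upwards with x a ha m
      obtain ⟨x', T⟩ := a
      rw [mem_product, mem_singleton, mem_powersetCard] at ha
      obtain ⟨ha1, -, ha3⟩ := ha
      simp only at ha1 ha3 ⊢
      have h1 : {n | n ∈ Ioc (Nat.sqrt x') x' ∧ m ∈ T.image (fun i => n + i)} ⊆
          ((T.image (fun i => m - i) : Finset ℕ) : Set ℕ) := by
        rintro n ⟨-, hm⟩
        obtain ⟨i, hi, hi2⟩ := mem_image.1 hm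
        rw [mem_coe, mem_image]
        exact ⟨i, hi, by omega⟩
      refine (Set.ncard_le_ncard h1 (finite_toSet _)).trans ?_
      rw [Set.ncard_coe_finset]
      have := card_image_le (s := T) (f := fun i => m - i)
      omega)
  filter_upwards [h] with ω hω ε hε
  filter_upwards [hω ε hε] with x h1 T hT hk
  have h7 := h1 (x, T) (mem_product.2 ⟨mem_singleton_self _, mem_powersetCard.2 ⟨hT, hk⟩⟩)
  simp only at h7
  have h8 : ∀ g : ℕ → ℝ, ∑ n ∈ Ioc (Nat.sqrt x) x, ∏ m ∈ T.image (fun i => n + i), g m =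
      ∑ n ∈ Ioc (Nat.sqrt x) x, ∏ i ∈ T, g (n + i) := fun g =>
    sum_congr rfl fun n _ => prod_image (fun i _ j _ h => by simpa using h)
  rw [h8 (fun m => In A m ω), h8 ρ] at h7
  exact h7

end

/-- a residue class with `n` and `n + t` coprime to the small primes -/
lemma crt (B t : ℕ) (ht : Even t) : ∃ k : ℕ, ∀ p : ℕ, p.Prime → p ≤ B → ¬ p ∣ k ∧ ¬ p ∣ k + t := by
  classical
  set P : Finset ℕ := (range (B + 1)).filter Nat.Prime with hP
  set g : ℕ := ∏ p ∈ P.filter (fun p => p ∣ t + 1), p with hg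
  set g' : ℕ := ∏ p ∈ P.filter (fun p => ¬ p ∣ t + 1), p with hg'
  have hco : Nat.Coprime g g' := by
    refine Nat.Coprime.prod_left fun p hp => Nat.Coprime.prod_right fun q hq => ?_
    obtain ⟨hp1, hp2⟩ := mem_filter.1 hp
    obtain ⟨hq1, hq2⟩ := mem_filter.1 hq
    refine (Nat.coprime_primes (mem_filter.1 hp1).2 (mem_filter.1 hq1).2).2 ?_
    rintro rfl
    exact hq2 hp2
  obtain ⟨k, hk1, hk2⟩ := Nat.chineseRemainder hco (g - 1) 1
  have hg1 : 1 ≤ g := Nat.pos_of_ne_zero (prod_ne_zero_iff.2 fun p hp =>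
    (mem_filter.1 (mem_filter.1 hp).1).2.ne_zero)
  refine ⟨k, fun p hp hpB => ?_⟩
  have hpP : p ∈ P := mem_filter.2 ⟨mem_range.2 (by omega), hp⟩
  have hp2 := hp.two_le
  by_cases hpt : p ∣ t + 1
  · have hpg : p ∣ g := dvd_prod_of_mem _ (mem_filter.2 ⟨hpP, hpt⟩)
    have h1 : p ∣ k + 1 := by
      have h2 : k + 1 ≡ g - 1 + 1 [MOD p] := (hk1.of_dvd hpg).add_right 1
      rw [Nat.sub_add_cancel hg1] at h2
      exact (h2.dvd_iff dvd_rfl).2 hpg
    constructor
    · intro h
      have := (Nat.dvd_add_right h).1 h1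
      have := Nat.le_of_dvd one_pos this
      omega
    · intro h
      have h3 : p ∣ (k + t) + 2 := by
        have := dvd_add h1 hpt
        have e : k + 1 + (t + 1) = k + t + 2 := by ring
        rwa [e] at this
      have h4 := (Nat.dvd_add_right h).1 h3
      have h5 := Nat.le_of_dvd (by norm_num) h4
      have h6 : p = 2 := by omega
      subst h6
      obtain ⟨u, rfl⟩ := ht
      omega
  · have hpg : p ∣ g' := dvd_prod_of_mem _ (mem_filter.2 ⟨hpP, hpt⟩)
    have h1 : k ≡ 1 [MOD p] := hk2.of_dvd hpg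
    constructor
    · intro h
      have := (h1.dvd_iff dvd_rfl).1 h
      have := Nat.le_of_dvd one_pos this
      omega
    · intro h
      have h2 : k + t ≡ 1 + t [MOD p] := h1.add_right t
      have := (h2.dvd_iff dvd_rfl).1 h
      exact hpt (by rwa [add_comm] at this)

open Classical in
/-- many rough pairs -/
lemma many (B : ℕ) : ∀ᶠ x : ℕ in atTop, ∀ t : ℕ, Even t →
    (x : ℝ) / (4 * B.factorial) ≤ (((Ioc (Nat.sqrt x) x).filter
      (fun n => Rough (fun _ => B) n ∧ Rough (fun _ => B) (n + t))).card : ℝ) := by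
  set Q : ℕ := B.factorial with hQ
  have hQ0 : 0 < Q := Nat.factorial_pos B
  filter_upwards [sqrt_tendsto.eventually_ge_atTop (4 * Q), eventually_ge_atTop (4 * Q)]
    with x h1 h2 t ht
  obtain ⟨k, hk⟩ := crt B t ht
  set s := Nat.sqrt x with hs
  have hss : s * s ≤ x := Nat.sqrt_le x
  set K := x / (2 * Q) with hK
  have hKx : 2 * Q * K ≤ x := Nat.mul_div_le x (2 * Q)
  have hKx2 : x < 2 * Q * (K + 1) := by
    have := Nat.lt_mul_div_succ x (show 0 < 2 * Q by omega)
    simpa [hK] using this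
  have hkQ : k % Q < Q := Nat.mod_lt _ hQ0
  have hinj : Function.Injective (fun i : ℕ => Q * (s + 1) + k % Q + Q * i) := by
    intro i j h
    simp only at h
    have : Q * i = Q * j := by omega
    exact Nat.eq_of_mul_eq_mul_left hQ0 this
  have hsub : (range K).image (fun i : ℕ => Q * (s + 1) + k % Q + Q * i) ⊆
      (Ioc s x).filter (fun n => Rough (fun _ => B) n ∧ Rough (fun _ => B) (n + t)) := by
    intro n hn
    obtain ⟨i, hi, rfl⟩ := mem_image.1 hn
    rw [mem_range] at hi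
    have hrough : ∀ p : ℕ, p.Prime → p ≤ B → ∀ u : ℕ, p ∣ Q * (s + 1) + k % Q + Q * i + u → p ∣ k + u := by
      intro p hp hpB u h
      have hpQ : p ∣ Q := (hp.dvd_factorial).2 hpB
      have e : Q * (s + 1) + k % Q + Q * i + u + Q * (k / Q) = Q * (s + 1 + i) + (k + u) := by
        have := Nat.mod_add_div k Q
        have e2 : k + u = k % Q + Q * (k / Q) + u := by rw [this]
        rw [e2]
        ring
      have h3 : p ∣ Q * (s + 1 + i) + (k + u) := by
        rw [← e]
        exact dvd_add h (hpQ.mul_right _)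
      exact (Nat.dvd_add_right (hpQ.mul_right _)).1 h3
    refine mem_filter.2 ⟨mem_Ioc.2 ⟨?_, ?_⟩, ?_, ?_⟩
    · have : s + 1 ≤ Q * (s + 1) := Nat.le_mul_of_pos_left _ hQ0
      omega
    · have h3 : Q * (i + 1) ≤ Q * K := Nat.mul_le_mul_left Q hi
      have h4 : 4 * Q * s ≤ x := (Nat.mul_le_mul_right s h1).trans hss
      have h5 : Q ≤ Q * s := Nat.le_mul_of_pos_right _ (by omega)
      have e1 : Q * (i + 1) = Q * i + Q := by ring
      have e2 : Q * (s + 1) = Q * s + Q := by ring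
      have e3 : 4 * Q * s = 4 * (Q * s) := by ring
      have e4 : 2 * Q * K = 2 * (Q * K) := by ring
      omega
    · intro p hp hpB hd
      exact (hk p hp hpB).1 (by simpa using hrough p hp hpB 0 (by simpa using hd))
    · intro p hp hpB hd
      exact (hk p hp hpB).2 (hrough p hp hpB t hd)
  have hcard : K ≤ ((Ioc s x).filter (fun n => Rough (fun _ => B) n ∧ Rough (fun _ => B) (n + t))).card := by
    have := card_le_card hsub
    rwa [card_image_of_injective _ hinj, card_range] at this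
  have hcard' : (K : ℝ) ≤ (((Ioc s x).filter (fun n => Rough (fun _ => B) n ∧ Rough (fun _ => B) (n + t))).card : ℝ) := by
    exact_mod_cast hcard
  refine le_trans ?_ hcard'
  have hQr : (0 : ℝ) < Q := by exact_mod_cast hQ0
  rw [div_le_iff₀ (by positivity)]
  have h6 : (x : ℝ) ≤ 2 * Q * (K + 1) := by exact_mod_cast hKx2.le
  have h7 : (4 * Q : ℝ) ≤ x := by exact_mod_cast h2
  nlinarith

end Pool.Agent.Run7.h899.GP
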