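import Mathlib
import Pool.Agent.Run7.h899.GP.Law

/-! Every even number up to a constant times the logarithm is a gap. -/

set_option autoImplicit false
set_option linter.unusedSectionVars false

namespace Pool.Agent.Run7.h899.GP

open Finset Filter Asymptotics MeasureTheory Pool.Agent.N233.GM
open scoped Topology

lemma rho_up (B x n i : ℕ) (hx : 3 ≤ x) (hn : Nat.sqrt x < n) :
    rho1 (fun _ => B) (n + i) ≤ 2 * W B / Real.log x := by
  have hW : 1 ≤ W B := W_ge B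
  have hx1 : 1 ≤ Real.log (x : ℝ) := (HH_le 0 x hx).2
  have h1 : x ≤ (n + i) ^ 2 := by
    have h0 := Nat.lt_succ_sqrt x
    have h2 : (Nat.sqrt x).succ ≤ n + i := by
      have : Nat.sqrt x + 1 ≤ n + i := by omega
      exact this
    have h3 := Nat.mul_le_mul h2 h2
    rw [sq]
    exact h0.le.trans h3
  have h2 : Real.log (x : ℝ) ≤ 2 * Real.log ((n + i : ℕ) : ℝ) := by
    have hxr : (0 : ℝ) < x := by
      have : 0 < x := by omega
      exact_mod_cast this
    have h3 : Real.log (x : ℝ) ≤ Real.log (((n + i : ℕ) : ℝ) ^ 2) := Real.log_le_log hxr (by exact_mod_cast h1)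
    rw [Real.log_pow] at h3
    exact_mod_cast h3
  unfold rho1
  split_ifs
  · refine (min_le_right _ _).trans ?_
    show W B / Real.log ((n + i : ℕ) : ℝ) ≤ _
    rw [div_le_div_iff₀ (by linarith) (by linarith)]
    nlinarith
  · exact div_nonneg (by linarith) (by linarith)

lemma rho_lo (B x m : ℕ) (hx : 3 ≤ x) (hm2 : 2 ≤ m) (hm : m ≤ x ^ 2) (hr : Rough (fun _ => B) m) :
    1 / (2 * Real.log x) ≤ rho1 (fun _ => B) m := by
  have hW : 1 ≤ W B := W_ge B
  have hx1 : 1 ≤ Real.log (x : ℝ) := (HH_le 0 x hx).2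
  have hmr : (2 : ℝ) ≤ m := by exact_mod_cast hm2
  have h1 : 0 < Real.log (m : ℝ) := Real.log_pos (by linarith)
  have h2 : Real.log (m : ℝ) ≤ 2 * Real.log x := by
    have h3 : Real.log (m : ℝ) ≤ Real.log ((x : ℝ) ^ 2) := Real.log_le_log (by linarith) (by exact_mod_cast hm)
    rw [Real.log_pow] at h3
    exact_mod_cast h3
  unfold rho1
  rw [if_pos hr]
  refine le_min ?_ ?_
  · rw [div_le_one (by linarith)]
    linarith
  · show 1 / (2 * Real.log (x : ℝ)) ≤ W B / Real.log (m : ℝ)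
    rw [div_le_div_iff₀ (by linarith) h1]
    nlinarith

theorem main (B C : ℕ) (f : ℕ → ℝ) (hf : ∀ m, 0 ≤ f m ∧ f m ≤ 1)
    (hlaw : ∀ k : ℕ, ∀ ε : ℝ, 0 < ε → ∀ᶠ x : ℕ in atTop, ∀ T ⊆ range (HH C x + 1), T.card = k →
      |∑ n ∈ Ioc (Nat.sqrt x) x, ∏ i ∈ T, f (n + i) -
        ∑ n ∈ Ioc (Nat.sqrt x) x, ∏ i ∈ T, rho1 (fun _ => B) (n + i)| ≤
        2 * k * (k + 1 : ℕ) * √(2 * ((1 : ℕ) + 2) * Real.log x * (Ioc (Nat.sqrt x) x).card) +
          ε * ∑ n ∈ Ioc (Nat.sqrt x) x, ∏ i ∈ T, rho1 (fun _ => B) (n + i)) :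
    ∀ᶠ x : ℕ in atTop, ∀ t : ℕ, 0 < t → Even t → (t : ℝ) ≤ C * Real.log x →
      Real.exp (-(2 * (C * (2 * W B)))) / (64 * B.factorial) * (x / Real.log x ^ 2) ≤
        ∑ n ∈ Ioc (Nat.sqrt x) x, f n * f (n + t) * ∏ i ∈ Ioo 0 t, (1 - f (n + i)) := by
  classical
  set w : ℝ := W B with hw
  have hw1 : 1 ≤ w := W_ge B
  set lam : ℝ := C * (2 * w) with hlam
  have hlam0 : 0 ≤ lam := by positivity
  have hexp : 0 < Real.exp (-(2 * lam)) := Real.exp_pos _
  obtain ⟨L, hL⟩ : ∃ L : ℕ, lam ^ (2 * L + 2) / (2 * L + 2).factorial ≤ Real.exp (-(2 * lam)) / 4 := by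
    have h1 := (FloorSemiring.tendsto_pow_div_factorial_atTop lam).eventually
      (gt_mem_nhds (show (0 : ℝ) < Real.exp (-(2 * lam)) / 4 by positivity))
    obtain ⟨N0, hN0⟩ := eventually_atTop.1 h1
    exact ⟨N0, (hN0 (2 * N0 + 2) (by omega)).le⟩
  set M : ℝ := ∑ j ∈ range (2 * L + 2), lam ^ j / j.factorial with hM
  have hM0 : 0 ≤ M := sum_nonneg fun j _ => by positivity
  set η : ℝ := Real.exp (-(2 * lam)) / (4 * (M + 1)) with hη
  have hη0 : 0 < η := by positivity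
  have hηM : η * M ≤ Real.exp (-(2 * lam)) / 4 := by
    rw [hη, div_mul_eq_mul_div, div_le_div_iff₀ (by positivity) (by norm_num)]
    nlinarith
  have hBf : (0 : ℝ) < B.factorial := by exact_mod_cast Nat.factorial_pos B
  set δ : ℝ := Real.exp (-(2 * lam)) / (64 * B.factorial) with hδ
  have hδ0 : 0 < δ := by positivity
  set K : ℝ := 6 * (2 * L + 2) * (2 * L + 3) * (2 * L + 4) with hK
  have hK0 : 0 < K := by positivity
  have hall : ∀ᶠ x : ℕ in atTop, ∀ k ∈ range (2 * L + 4), ∀ T ⊆ range (HH C x + 1), T.card = k →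
      |∑ n ∈ Ioc (Nat.sqrt x) x, ∏ i ∈ T, f (n + i) -
        ∑ n ∈ Ioc (Nat.sqrt x) x, ∏ i ∈ T, rho1 (fun _ => B) (n + i)| ≤
        2 * k * (k + 1 : ℕ) * √(2 * ((1 : ℕ) + 2) * Real.log x * (Ioc (Nat.sqrt x) x).card) +
          η * ∑ n ∈ Ioc (Nat.sqrt x) x, ∏ i ∈ T, rho1 (fun _ => B) (n + i) :=
    (Filter.eventually_all_finset _).2 fun k _ => hlaw k η hη0
  have hlog := (Real.tendsto_log_atTop.comp (tendsto_natCast_atTop_atTop (R := ℝ))).eventually_ge_atTop (4 * w)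
  filter_upwards [hall, hlog, many B, pow_small C (2 * L + 4) (K / δ) (by positivity) (1 / 2) (by norm_num),
    pow_small C 1 1 one_pos 1 one_pos, eventually_ge_atTop 4] with x h1 h2 h3 h4 h5 h6 t ht hte htC
  simp only [Function.comp_apply] at h2
  have hx3 : 3 ≤ x := by omega
  have hx4 : (4 : ℝ) ≤ x := by exact_mod_cast h6
  obtain ⟨hH, hl1⟩ := HH_le C x hx3
  set l : ℝ := Real.log (x : ℝ) with hl
  have hl0 : 0 < l := by linarith
  have hcard : ((Ioc (Nat.sqrt x) x).card : ℝ) ≤ x := by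
    rw [Nat.card_Ioc]
    exact_mod_cast Nat.sub_le _ _
  have htH : t ≤ HH C x := Nat.le_floor htC
  set err : ℝ := (2 * (2 * L + 3) * (2 * L + 4)) * (3 * l * √x) with herr
  have herr0 : 0 ≤ err := by positivity
  have hsq : √(2 * ((1 : ℕ) + 2) * l * (Ioc (Nat.sqrt x) x).card) ≤ 3 * l * √x := by
    have e1 : 3 * l * √x = √((3 * l) ^ 2 * x) := by
      rw [Real.sqrt_mul (by positivity), Real.sqrt_sq (by positivity)]
    rw [e1]
    apply Real.sqrt_le_sqrt
    have e2 : 2 * (((1 : ℕ) : ℝ) + 2) * l ≤ (3 * l) ^ 2 := by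
      push_cast
      nlinarith
    have : 0 ≤ 2 * (((1 : ℕ) : ℝ) + 2) * l := by positivity
    calc 2 * (((1 : ℕ) : ℝ) + 2) * l * ((Ioc (Nat.sqrt x) x).card : ℝ) ≤ 2 * (((1 : ℕ) : ℝ) + 2) * l * x := by gcongr
      _ ≤ (3 * l) ^ 2 * x := by gcongr
  have hD := det (Ioc (Nat.sqrt x) x) f (rho1 (fun _ => B)) hf (rho1_bounds _) t (HH C x) L ht htH
    (2 * w / l) lam (by
      rw [div_le_div_iff₀ hl0 (by norm_num)]
      linarith)
    (fun n hn i => rho_up B x n i hx3 (mem_Ioc.1 hn).1) (by positivity)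
    (by
      calc (t : ℝ) * (2 * w / l) ≤ (C * l) * (2 * w / l) := by gcongr
        _ = lam := by
          rw [hlam]
          field_simp)
    err η herr0 hη0.le
    (by
      intro T hT hTc
      refine (h1 T.card (mem_range.2 (by omega)) T hT rfl).trans ?_
      refine add_le_add ?_ le_rfl
      have g1 : (T.card : ℝ) ≤ 2 * L + 3 := by exact_mod_cast hTc
      have g2 : ((T.card + 1 : ℕ) : ℝ) ≤ 2 * L + 4 := by
        push_cast
        linarith
      rw [herr]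
      gcongr)
  -- the expected number of pairs
  have hE : (x : ℝ) / (4 * B.factorial) * (1 / (2 * l) * (1 / (2 * l))) ≤
      ∑ n ∈ Ioc (Nat.sqrt x) x, rho1 (fun _ => B) n * rho1 (fun _ => B) (n + t) := by
    have hnn : ∀ n, 0 ≤ rho1 (fun _ => B) n * rho1 (fun _ => B) (n + t) := fun n =>
      mul_nonneg (rho1_bounds _ _).1 (rho1_bounds _ _).1
    calc (x : ℝ) / (4 * B.factorial) * (1 / (2 * l) * (1 / (2 * l)))
        ≤ (((Ioc (Nat.sqrt x) x).filter
          (fun n => Rough (fun _ => B) n ∧ Rough (fun _ => B) (n + t))).card : ℝ) * (1 / (2 * l) * (1 / (2 * l))) := by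
          apply mul_le_mul_of_nonneg_right _ (by positivity)
          convert h3 t hte
      _ = ∑ n ∈ (Ioc (Nat.sqrt x) x).filter
          (fun n => Rough (fun _ => B) n ∧ Rough (fun _ => B) (n + t)), (1 / (2 * l) * (1 / (2 * l))) := by
          rw [sum_const, nsmul_eq_mul]
      _ ≤ ∑ n ∈ (Ioc (Nat.sqrt x) x).filter
          (fun n => Rough (fun _ => B) n ∧ Rough (fun _ => B) (n + t)), rho1 (fun _ => B) n * rho1 (fun _ => B) (n + t) := by
          refine sum_le_sum fun n hn => ?_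
          obtain ⟨g1, g2, g3⟩ := mem_filter.1 hn
          rw [mem_Ioc] at g1
          have g4 : 2 ≤ Nat.sqrt x := Nat.le_sqrt.2 (by omega)
          have g5 : (t : ℝ) ≤ x := by
            rw [Real.rpow_one, one_mul, pow_one] at h5
            refine htC.trans (le_trans ?_ h5)
            nlinarith
          have g6 : t ≤ x := by exact_mod_cast g5
          have g7 : n + t ≤ x ^ 2 := by
            have : 2 * x ≤ x ^ 2 := by nlinarith
            omega
          have g8 : n ≤ x ^ 2 := by omega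
          exact mul_le_mul (rho_lo B x n hx3 (by omega) g8 g2) (rho_lo B x (n + t) hx3 (by omega) g7 g3)
            (by positivity) (rho1_bounds _ _).1
      _ ≤ _ := sum_le_sum_of_subset_of_nonneg (filter_subset _ _) fun n _ _ => hnn n
  set E : ℝ := ∑ n ∈ Ioc (Nat.sqrt x) x, rho1 (fun _ => B) n * rho1 (fun _ => B) (n + t) with hEd
  have hE0 : 0 ≤ E := le_trans (by positivity) hE
  have hbr : Real.exp (-(2 * lam)) / 2 ≤ Real.exp (-(2 * lam)) - lam ^ (2 * L + 2) / (2 * L + 2).factorial - η * M := by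
    linarith
  have hmain : 2 * (δ * (x / l ^ 2)) ≤ E * (Real.exp (-(2 * lam)) -
      lam ^ (2 * L + 2) / (2 * L + 2).factorial - η * M) := by
    calc 2 * (δ * (x / l ^ 2)) = (x : ℝ) / (4 * B.factorial) * (1 / (2 * l) * (1 / (2 * l))) * (Real.exp (-(2 * lam)) / 2) := by
          rw [hδ]
          field_simp
          ring
      _ ≤ E * (Real.exp (-(2 * lam)) / 2) := by gcongr
      _ ≤ _ := by gcongr
  have herror : ((2 * L + 2 : ℕ) : ℝ) * ((HH C x : ℝ) + 1) ^ (2 * L + 1) * err ≤ δ * (x / l ^ 2) := by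
    have hx2 : (x : ℝ) ^ (1 / 2 : ℝ) = √x := (Real.sqrt_eq_rpow _).symm
    rw [hx2] at h4
    have g1 : K * ((C + 1 : ℝ) * l) ^ (2 * L + 4) ≤ δ * √x := by
      have : K / δ * ((C + 1 : ℝ) * l) ^ (2 * L + 4) * δ ≤ √x * δ := by gcongr
      calc K * ((C + 1 : ℝ) * l) ^ (2 * L + 4) = K / δ * ((C + 1 : ℝ) * l) ^ (2 * L + 4) * δ := by field_simp
        _ ≤ √x * δ := this
        _ = _ := mul_comm _ _
    have hC1 : (1 : ℝ) ≤ C + 1 := by
      have : (0 : ℝ) ≤ C := Nat.cast_nonneg C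
      linarith
    have g2 : l ^ 3 ≤ ((C + 1 : ℝ) * l) ^ 3 := by
      apply pow_le_pow_left₀ hl0.le
      nlinarith
    have e1 : δ * (x / l ^ 2) = (δ * √x) * √x / l ^ 2 := by
      have : (x : ℝ) = √x * √x := (Real.mul_self_sqrt (by linarith)).symm
      rw [mul_assoc, ← this, mul_div_assoc]
    rw [e1, le_div_iff₀ (by positivity)]
    calc ((2 * L + 2 : ℕ) : ℝ) * ((HH C x : ℝ) + 1) ^ (2 * L + 1) * err * l ^ 2
        ≤ ((2 * L + 2 : ℕ) : ℝ) * ((C + 1 : ℝ) * l) ^ (2 * L + 1) * err * l ^ 2 := by gcongr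
      _ = K * ((C + 1 : ℝ) * l) ^ (2 * L + 1) * l ^ 3 * √x := by
          rw [herr, hK]
          push_cast
          ring
      _ ≤ K * ((C + 1 : ℝ) * l) ^ (2 * L + 1) * ((C + 1 : ℝ) * l) ^ 3 * √x := by gcongr
      _ = K * ((C + 1 : ℝ) * l) ^ (2 * L + 4) * √x := by ring
      _ ≤ (δ * √x) * √x := by gcongr
  calc δ * (x / l ^ 2) ≤ E * (Real.exp (-(2 * lam)) - lam ^ (2 * L + 2) / (2 * L + 2).factorial - η * M) -
        ((2 * L + 2 : ℕ) : ℝ) * ((HH C x : ℝ) + 1) ^ (2 * L + 1) * err := by linarith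
    _ ≤ _ := hD

end Pool.Agent.Run7.h899.GP
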